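import Pool.Agent.Lib_Inner.Basic
import Pool.Agent.Lib_Forcing.Numbers
import Mathlib.Data.Set.Finite.Basic

/-!
# Rich generic models, truth lemma and forcing of first-order properties
-/

set_option linter.unusedSectionVars false
set_option linter.unusedVariables false

namespace Pool.Agent.Inner

universe u

open Forcing Name

variable {P : Type u} [Preorder P] [OrderTop P]

/-- generic data containing the natural numbers, closed under pairing, and such that membership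
facts are witnessed by the listed names -/
structure Rich (𝔊 : Gen P) : Prop where
  num_mem : ∀ n, num n ∈ 𝔊.N
  omega_mem : omegaName ∈ 𝔊.N
  pair_mem : ∀ x ∈ 𝔊.N, ∀ y ∈ 𝔊.N, pairName x y ∈ 𝔊.N
  split : ∀ x ∈ 𝔊.N, ∀ y ∈ 𝔊.N, (∃ n, fmem x y (𝔊.G n)) →
    ∃ n j, 𝔊.G n ≤ y.cd j ∧ feq x (y.nm j) (𝔊.G n)

theorem exists_rich {ι κ : Type} [Countable ι] [Countable κ] (S : Set (Name P)) (hS : S.Countable)
    (ops : ι → List (Name P) → Name P) (D : κ → List (Name P) → Set P)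
    (hD : ∀ k l p, ∃ q ≤ p, q ∈ D k l) (p0 : P) :
    ∃ 𝔊 : Gen P, Rich 𝔊 ∧ 𝔊.G 0 = p0 ∧ S ⊆ 𝔊.N ∧
      (∀ k l, (∀ x ∈ l, x ∈ 𝔊.N) → ops k l ∈ 𝔊.N) ∧
      ∀ k l, (∀ x ∈ l, x ∈ 𝔊.N) → ∃ n, 𝔊.G n ∈ D k l := by
  classical
  -- enumerate `S`
  have hS' : (insert omegaName S).Countable := hS.insert _
  obtain ⟨e, he⟩ := hS'.exists_eq_range ⟨omegaName, Set.mem_insert _ _⟩
  let I := (ι ⊕ ℕ) ⊕ (ℕ ⊕ Unit)
  let O : I → List (Name P) → Name P := fun t l => match t with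
    | Sum.inl (Sum.inl k) => ops k l
    | Sum.inl (Sum.inr n) => e n
    | Sum.inr (Sum.inl n) => num n
    | Sum.inr (Sum.inr _) => pairName (l.getD 0 omegaName) (l.getD 1 omegaName)
  let K := κ ⊕ Unit
  let DD : K → List (Name P) → Set P := fun t l => match t with
    | Sum.inl k => D k l
    | Sum.inr _ => {q | (∃ j, q ≤ (l.getD 1 omegaName).cd j ∧
        feq (l.getD 0 omegaName) ((l.getD 1 omegaName).nm j) q) ∨
        ∀ r ≤ q, ¬ fmem (l.getD 0 omegaName) (l.getD 1 omegaName) r}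
  have hDD : ∀ k l p, ∃ q ≤ p, q ∈ DD k l := by
    rintro (k | _) l p
    · exact hD k l p
    · by_cases h : ∃ r ≤ p, fmem (l.getD 0 omegaName) (l.getD 1 omegaName) r
      · obtain ⟨r, hr, hm⟩ := h
        obtain ⟨s, hs, j, h1, h2⟩ := hm r le_rfl
        exact ⟨s, hs.trans hr, Or.inl ⟨j, h1, h2⟩⟩
      · push Not at h
        exact ⟨p, le_rfl, Or.inr h⟩
  obtain ⟨𝔊, h0, h1, h2⟩ := exists_gen' (ι := I) (κ := K) O DD hDD p0
  refine ⟨𝔊, ⟨?_, ?_, ?_, ?_⟩, h0, ?_, fun k l hl => h1 (Sum.inl (Sum.inl k)) l hl,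
    fun k l hl => h2 (Sum.inl k) l hl⟩
  · intro n
    exact h1 (Sum.inr (Sum.inl n)) [] (by simp)
  · have : omegaName ∈ Set.range e := he ▸ Set.mem_insert _ _
    obtain ⟨n, hn⟩ := this
    have h3 := h1 (Sum.inl (Sum.inr n)) [] (by simp)
    have h4 : O (Sum.inl (Sum.inr n)) [] = e n := rfl
    rw [h4, hn] at h3
    exact h3
  · intro x hx y hy
    have h3 := h1 (Sum.inr (Sum.inr ())) [x, y] (by simp [hx, hy])
    exact h3
  · rintro x hx y hy ⟨n, hn⟩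
    obtain ⟨m, hm⟩ := h2 (Sum.inr ()) [x, y] (by simp [hx, hy])
    have hm' : (∃ j, 𝔊.G m ≤ y.cd j ∧ feq x (y.nm j) (𝔊.G m)) ∨ ∀ r ≤ 𝔊.G m, ¬ fmem x y r := hm
    rcases hm' with ⟨j, h3, h4⟩ | h3
    · exact ⟨m, j, h3, h4⟩
    · exact absurd (fmem_mono hn (𝔊.anti (le_max_right m n))) (h3 _ (𝔊.anti (le_max_left m n)))
  · intro x hx
    have : x ∈ Set.range e := he ▸ Set.mem_insert_of_mem _ hx
    obtain ⟨n, hn⟩ := this
    have h3 := h1 (Sum.inl (Sum.inr n)) [] (by simp)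
    have h4 : O (Sum.inl (Sum.inr n)) [] = e n := rfl
    rw [h4, hn] at h3
    exact h3

/-! ### forcing of first-order properties -/

/-- `p` forces the first-order property `R` of the names `v` -/
def Frc (R : Fam.{u+1}) (v : ℕ → Name P) (p : P) : Prop :=
  ∃ φ : Fml, (∀ (M : Type (u+1)) (E : M → M → Prop) (v : ℕ → M), Sat E φ v ↔ R M E v) ∧
    Force φ v p

variable {R S : Fam.{u+1}} {v : ℕ → Name P} {p q : P}

lemma Frc.mono (h : Frc R v p) (hq : q ≤ p) : Frc R v q := by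
  obtain ⟨φ, h1, h2⟩ := h
  exact ⟨φ, h1, force_mono h2 hq⟩

/-- key lemma: a formula true in all suitable generic models is forced -/
lemma force_of {ι κ : Type} [Countable ι] [Countable κ] (φ : Fml) (v : ℕ → Name P) (p : P)
    (S : Set (Name P)) (hS : S.Countable)
    (ops : ι → List (Name P) → Name P) (D : κ → List (Name P) → Set P)
    (hD : ∀ k l p, ∃ q ≤ p, q ∈ D k l)
    (h : ∀ (𝔊 : Gen P), Rich 𝔊 → 𝔊.G 0 ≤ p → S ⊆ 𝔊.N →
      (∀ k l, (∀ x ∈ l, x ∈ 𝔊.N) → ops k l ∈ 𝔊.N) →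
      (∀ k l, (∀ x ∈ l, x ∈ 𝔊.N) → ∃ n, 𝔊.G n ∈ D k l) →
      ∀ (hv : ∀ i, v i ∈ 𝔊.N), Sat 𝔊.E φ (fun i => 𝔊.cls ⟨v i, hv i⟩)) : Force φ v p := by
  apply force_dense
  intro q hq
  obtain ⟨𝔊, h1, h2, h3, h4, h5⟩ := exists_rich (S ∪ Set.range v)
    (hS.union (Set.countable_range v)) ops D hD q
  have hv : ∀ i, v i ∈ 𝔊.N := fun i => h3 (Or.inr ⟨i, rfl⟩)
  have h6 := h 𝔊 h1 (by rw [h2]; exact hq) (fun x hx => h3 (Or.inl hx)) h4 h5 hv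
  rw [𝔊.los φ (fun i => ⟨v i, hv i⟩)] at h6
  obtain ⟨n, hn⟩ := h6
  exact ⟨𝔊.G n, by rw [← h2]; exact 𝔊.anti (Nat.zero_le n), hn⟩

lemma Frc.force (h : Frc R v p) {φ : Fml}
    (hφ : ∀ (M : Type (u+1)) (E : M → M → Prop) (v : ℕ → M), Sat E φ v ↔ R M E v) :
    Force φ v p := by
  obtain ⟨ψ, h1, h2⟩ := h
  refine force_of (ι := Empty) (κ := Empty) φ v p ∅ Set.countable_empty (fun k => k.elim)
    (fun k => k.elim) (fun k => k.elim) ?_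
  intro 𝔊 _ h0 _ _ _ hv
  rw [hφ, ← h1, 𝔊.los ψ (fun i => ⟨v i, hv i⟩)]
  exact ⟨0, force_mono h2 h0⟩

lemma Frc.dense (hR : FO R) (h : ∀ q ≤ p, ∃ r ≤ q, Frc R v r) : Frc R v p := by
  obtain ⟨φ, hφ⟩ := hR
  refine ⟨φ, hφ, force_dense fun q hq => ?_⟩
  obtain ⟨r, hr, h1⟩ := h q hq
  exact ⟨r, hr, h1.force hφ⟩

/-- truth lemma -/
lemma truth (hR : FO R) (𝔊 : Gen P) (v : ℕ → 𝔊.N) :
    R 𝔊.M 𝔊.E (fun i => 𝔊.cls (v i)) ↔ ∃ n, Frc R (fun i => (v i).1) (𝔊.G n) := by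
  obtain ⟨φ, hφ⟩ := hR
  rw [← hφ, 𝔊.los]
  constructor
  · rintro ⟨n, hn⟩; exact ⟨n, φ, hφ, hn⟩
  · rintro ⟨n, hn⟩; exact ⟨n, hn.force hφ⟩

lemma Frc.true (hR : FO R) (𝔊 : Gen P) (v : ℕ → 𝔊.N) {n : ℕ}
    (h : Frc R (fun i => (v i).1) (𝔊.G n)) : R 𝔊.M 𝔊.E (fun i => 𝔊.cls (v i)) :=
  (truth hR 𝔊 v).2 ⟨n, h⟩

/-- to force a property it is enough that it holds in all suitable generic models -/
lemma frc_of {ι κ : Type} [Countable ι] [Countable κ] (hR : FO R) (v : ℕ → Name P) (p : P)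
    (S : Set (Name P)) (hS : S.Countable)
    (ops : ι → List (Name P) → Name P) (D : κ → List (Name P) → Set P)
    (hD : ∀ k l p, ∃ q ≤ p, q ∈ D k l)
    (h : ∀ (𝔊 : Gen P), Rich 𝔊 → 𝔊.G 0 ≤ p → S ⊆ 𝔊.N →
      (∀ k l, (∀ x ∈ l, x ∈ 𝔊.N) → ops k l ∈ 𝔊.N) →
      (∀ k l, (∀ x ∈ l, x ∈ 𝔊.N) → ∃ n, 𝔊.G n ∈ D k l) →
      ∀ (hv : ∀ i, v i ∈ 𝔊.N), R 𝔊.M 𝔊.E (fun i => 𝔊.cls ⟨v i, hv i⟩)) : Frc R v p := by
  obtain ⟨φ, hφ⟩ := hR
  refine ⟨φ, hφ, force_of φ v p S hS ops D hD ?_⟩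
  intro 𝔊 h1 h2 h3 h4 h5 hv
  rw [hφ]
  exact h 𝔊 h1 h2 h3 h4 h5 hv

/-- simple version, with only extra names and dense sets -/
lemma frc_of' (hR : FO R) (v : ℕ → Name P) (p : P)
    (S : Set (Name P)) (hS : S.Countable) {κ : Type} [Countable κ] (D : κ → Set P)
    (hD : ∀ k p, ∃ q ≤ p, q ∈ D k)
    (h : ∀ (𝔊 : Gen P), Rich 𝔊 → 𝔊.G 0 ≤ p → S ⊆ 𝔊.N → (∀ k, ∃ n, 𝔊.G n ∈ D k) →
      ∀ (hv : ∀ i, v i ∈ 𝔊.N), R 𝔊.M 𝔊.E (fun i => 𝔊.cls ⟨v i, hv i⟩)) : Frc R v p :=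
  frc_of (ι := Empty) (κ := κ) hR v p S hS (fun k => k.elim) (fun k _ => D k)
    (fun k _ p => hD k p) (fun 𝔊 h1 h2 h3 _ h5 hv => h 𝔊 h1 h2 h3 (fun k => h5 k [] (by simp)) hv)

/-- density form of forced existence -/
lemma frc_ex_dense (hR : FO R)
    (h : Frc (fun M E v => ∃ y, R M E (cons y v)) v p) :
    ∀ q ≤ p, ∃ r ≤ q, ∃ y, Frc R (cons y v) r := by
  intro q hq
  obtain ⟨𝔊, h1, h2, h3, _, _⟩ := exists_rich (P := P) (ι := Empty) (κ := Empty) (Set.range v)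
    (Set.countable_range v) (fun k => k.elim) (fun k => k.elim) (fun k => k.elim) q
  have hv : ∀ i, v i ∈ 𝔊.N := fun i => h3 ⟨i, rfl⟩
  obtain ⟨φ, hφ1, hφ2⟩ := h
  have h4 : Sat 𝔊.E φ (fun i => 𝔊.cls ⟨v i, hv i⟩) := by
    rw [𝔊.los φ (fun i => ⟨v i, hv i⟩)]
    exact ⟨0, force_mono hφ2 (by rw [h2]; exact hq)⟩
  rw [hφ1] at h4
  obtain ⟨y, hy⟩ := h4
  obtain ⟨y', rfl⟩ := 𝔊.exists_rep y
  have h5 : R 𝔊.M 𝔊.E (fun i => 𝔊.cls (cons y' (fun i => ⟨v i, hv i⟩) i)) := by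
    have : (fun i => 𝔊.cls (cons y' (fun i => ⟨v i, hv i⟩) i)) =
        cons (𝔊.cls y') (fun i => 𝔊.cls ⟨v i, hv i⟩) := by
      funext i; cases i <;> rfl
    rw [this]; exact hy
  rw [truth hR] at h5
  obtain ⟨n, hn⟩ := h5
  refine ⟨𝔊.G n, by rw [← h2]; exact 𝔊.anti (Nat.zero_le n), y'.1, ?_⟩
  have : (fun i => (cons y' (fun i => (⟨v i, hv i⟩ : 𝔊.N)) i).1) = cons y'.1 v := by
    funext i; cases i <;> rfl
  rwa [this] at hn

/-- the maximum principle for first-order properties -/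
lemma exists_name (hR : FO R) (v : ℕ → Name P) :
    ∃ x : Name P, ∀ p, Frc (fun M E v => ∃ y, R M E (cons y v)) v p → Frc R (cons x v) p := by
  obtain ⟨φ, hφ⟩ := id hR
  obtain ⟨x, hx⟩ := max_principle (fun x p => Force φ (cons x v) p)
    (fun x p q hq h => force_mono h hq) (fun x p h => force_dense h)
    (fun x y p h hf => by
      refine force_congr (fun j => ?_) hf
      cases j with
      | zero => exact h
      | succ j => exact feq_refl _ _)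
  refine ⟨x, fun p hp => ⟨φ, hφ, hx p ?_⟩⟩
  intro q hq
  obtain ⟨r, hr, y, hy⟩ := frc_ex_dense hR hp q hq
  exact ⟨r, hr, y, hy.force hφ⟩

/-- replacing names by forced-equal names -/
lemma Frc.congr_names {w : ℕ → Name P} (h : ∀ i, feq (v i) (w i) p) (hf : Frc R v p) :
    Frc R w p := by
  obtain ⟨φ, h1, h2⟩ := hf
  exact ⟨φ, h1, force_congr h h2⟩

/-- one can decide first-order properties -/
lemma frc_decide (hR : FO R) (v : ℕ → Name P) (p : P) :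
    ∃ q ≤ p, Frc R v q ∨ ∀ r ≤ q, ¬ Frc R v r := by
  by_cases h : ∃ q ≤ p, Frc R v q
  · obtain ⟨q, hq, h⟩ := h; exact ⟨q, hq, Or.inl h⟩
  · push Not at h; exact ⟨p, le_rfl, Or.inr h⟩

/-! ### numbers in rich models -/

namespace Rich

variable {𝔊 : Gen P} (h𝔊 : Rich 𝔊)
include h𝔊

/-- the element of the model named by a numeral -/
def nu (n : ℕ) : 𝔊.M := 𝔊.cls ⟨num n, h𝔊.num_mem n⟩

/-- the set of natural numbers of the model -/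
def om : 𝔊.M := 𝔊.cls ⟨omegaName, h𝔊.omega_mem⟩

lemma zfc : ModelsZFC 𝔊.E := 𝔊.modelsZFC

lemma nu_inj {m n : ℕ} : h𝔊.nu m = h𝔊.nu n ↔ m = n := by
  unfold nu
  rw [𝔊.cls_eq]
  constructor
  · rintro ⟨k, hk⟩; exact feq_num_iff.1 hk
  · rintro rfl; exact ⟨0, feq_refl _ _⟩

lemma mem_om {x : 𝔊.M} : 𝔊.E x h𝔊.om ↔ ∃ n, x = h𝔊.nu n := by
  obtain ⟨x', rfl⟩ := 𝔊.exists_rep x
  constructor
  · intro h
    obtain ⟨n, j, _, h2⟩ := h𝔊.split x'.1 x'.2 _ h𝔊.omega_mem h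
    exact ⟨j.down, (𝔊.cls_eq).2 ⟨n, h2⟩⟩
  · rintro ⟨n, hn⟩
    rw [hn]
    refine ⟨0, ?_⟩
    rw [fmem_omegaName]
    exact fun q _ => ⟨q, le_rfl, n, feq_refl _ _⟩

lemma mem_nu {x : 𝔊.M} {n : ℕ} : 𝔊.E x (h𝔊.nu n) ↔ ∃ m < n, x = h𝔊.nu m := by
  induction n generalizing x with
  | zero =>
    constructor
    · intro h
      obtain ⟨x', rfl⟩ := 𝔊.exists_rep x
      obtain ⟨k, hk⟩ := h
      exact absurd hk not_fmem_emptyName
    · rintro ⟨m, hm, _⟩; omega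
  | succ n ih =>
    have hs : 𝔊.E x (h𝔊.nu (n+1)) ↔ 𝔊.E x (h𝔊.nu n) ∨ x = h𝔊.nu n := by
      obtain ⟨x', rfl⟩ := 𝔊.exists_rep x
      exact 𝔊.E_succName (x := ⟨num n, h𝔊.num_mem n⟩) (h𝔊.num_mem (n+1))
    rw [hs, ih]
    constructor
    · rintro (⟨m, hm, h⟩ | h)
      · exact ⟨m, by omega, h⟩
      · exact ⟨n, by omega, h⟩
    · rintro ⟨m, hm, h⟩
      rcases Nat.lt_succ_iff_lt_or_eq.1 hm with h1 | h1
      · exact Or.inl ⟨m, h1, h⟩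
      · subst h1; exact Or.inr h

lemma isOmega_om : IsOmega 𝔊.E h𝔊.om := by
  have hz : ∀ e, (∀ z, ¬ 𝔊.E z e) → e = h𝔊.nu 0 := by
    intro e he
    apply ext h𝔊.zfc
    intro z
    rw [h𝔊.mem_nu]
    constructor
    · intro h; exact absurd h (he z)
    · rintro ⟨m, hm, _⟩; omega
  have hsucc : ∀ n s, IsSucc 𝔊.E s (h𝔊.nu n) → s = h𝔊.nu (n+1) := by
    intro n s hs
    apply ext h𝔊.zfc
    intro z
    rw [hs z, h𝔊.mem_nu, h𝔊.mem_nu]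
    constructor
    · rintro (⟨m, hm, h⟩ | h)
      · exact ⟨m, by omega, h⟩
      · exact ⟨n, by omega, h⟩
    · rintro ⟨m, hm, h⟩
      rcases Nat.lt_succ_iff_lt_or_eq.1 hm with h1 | h1
      · exact Or.inl ⟨m, h1, h⟩
      · subst h1; exact Or.inr h
  constructor
  · constructor
    · intro e he
      rw [hz e he, h𝔊.mem_om]
      exact ⟨0, rfl⟩
    · intro x s hx hs
      rw [h𝔊.mem_om] at hx ⊢
      obtain ⟨n, rfl⟩ := hx
      exact ⟨n+1, hsucc n s hs⟩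
  · intro w' hw' z hz'
    rw [h𝔊.mem_om] at hz'
    obtain ⟨n, rfl⟩ := hz'
    induction n with
    | zero =>
      apply hw'.1
      intro z hz
      rw [h𝔊.mem_nu] at hz
      obtain ⟨m, hm, _⟩ := hz
      omega
    | succ n ih =>
      refine hw'.2 _ _ ih ?_
      intro z
      rw [h𝔊.mem_nu, h𝔊.mem_nu]
      constructor
      · rintro ⟨m, hm, h⟩
        rcases Nat.lt_succ_iff_lt_or_eq.1 hm with h1 | h1
        · exact Or.inl ⟨m, h1, h⟩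
        · subst h1; exact Or.inr h
      · rintro (⟨m, hm, h⟩ | h)
        · exact ⟨m, by omega, h⟩
        · exact ⟨n, by omega, h⟩

lemma isOmega_iff {x : 𝔊.M} : IsOmega 𝔊.E x ↔ x = h𝔊.om := by
  constructor
  · intro h
    exact ext h𝔊.zfc fun z => ⟨fun hz => h.2 _ h𝔊.isOmega_om.1 z hz,
      fun hz => h𝔊.isOmega_om.2 _ h.1 z hz⟩
  · rintro rfl; exact h𝔊.isOmega_om

/-- names of pairs -/
lemma cls_pairName {x y : 𝔊.N} : 𝔊.cls ⟨pairName x.1 y.1, h𝔊.pair_mem _ x.2 _ y.2⟩ =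
    upair 𝔊.E (𝔊.cls x) (𝔊.cls y) := by
  rw [← isUPair_iff h𝔊.zfc]
  intro u
  obtain ⟨z, rfl⟩ := 𝔊.exists_rep u
  constructor
  · intro h
    obtain ⟨n, ⟨j⟩, _, h2⟩ := h𝔊.split z.1 z.2 _ (h𝔊.pair_mem _ x.2 _ y.2) h
    cases j
    · right; exact (𝔊.cls_eq).2 ⟨n, h2⟩
    · left; exact (𝔊.cls_eq).2 ⟨n, h2⟩
  · intro h
    have : ∃ n, feq z.1 x.1 (𝔊.G n) ∨ feq z.1 y.1 (𝔊.G n) := by
      rcases h with h | h
      · obtain ⟨n, hn⟩ := (𝔊.cls_eq).1 h; exact ⟨n, Or.inl hn⟩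
      · obtain ⟨n, hn⟩ := (𝔊.cls_eq).1 h; exact ⟨n, Or.inr hn⟩
    obtain ⟨n, hn⟩ := this
    refine ⟨n, ?_⟩
    rw [fmem_pairName]
    intro q hq
    refine ⟨q, le_rfl, ?_⟩
    rcases hn with hn | hn
    · exact Or.inl (feq_mono hn hq)
    · exact Or.inr (feq_mono hn hq)

end Rich

/-- the name of the ordered pair -/
def opairName (x y : Name P) : Name P := pairName (pairName x x) (pairName x y)

namespace Rich

variable {𝔊 : Gen P} (h𝔊 : Rich 𝔊)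
include h𝔊

lemma opair_mem {x y : Name P} (hx : x ∈ 𝔊.N) (hy : y ∈ 𝔊.N) : opairName x y ∈ 𝔊.N :=
  h𝔊.pair_mem _ (h𝔊.pair_mem _ hx _ hx) _ (h𝔊.pair_mem _ hx _ hy)

lemma cls_opairName {x y : 𝔊.N} : 𝔊.cls ⟨opairName x.1 y.1, h𝔊.opair_mem x.2 y.2⟩ =
    pair 𝔊.E (𝔊.cls x) (𝔊.cls y) := by
  unfold pair
  rw [← h𝔊.cls_pairName, ← h𝔊.cls_pairName]
  exact h𝔊.cls_pairName (x := ⟨pairName x.1 x.1, h𝔊.pair_mem _ x.2 _ x.2⟩)
    (y := ⟨pairName x.1 y.1, h𝔊.pair_mem _ x.2 _ y.2⟩)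

end Rich

end Pool.Agent.Inner

namespace Pool.Agent.Inner

universe u

open Forcing Name

variable {P : Type u} [Preorder P] [OrderTop P]

lemma ev_comp {α β : Type*} (f : α → β) (d : α) (l : List α) (k : ℕ) :
    f (ev d l k) = ev (f d) (l.map f) k := by
  simp only [ev, List.getD, List.getElem?_map]
  cases l[k]? <;> rfl

/-- truth of forced properties, for assignments given by lists -/
lemma Frc.true_list {R : Fam.{u+1}} (hR : FO R) (𝔊 : Gen P) (l : List 𝔊.N) (d : 𝔊.N) {n : ℕ}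
    (h : Frc R (ev d.1 (l.map Subtype.val)) (𝔊.G n)) :
    R 𝔊.M 𝔊.E (ev (𝔊.cls d) (l.map 𝔊.cls)) := by
  have e1 : (fun i => (ev d l i).1) = ev d.1 (l.map Subtype.val) :=
    funext fun i => ev_comp Subtype.val d l i
  have e2 : (fun i => 𝔊.cls (ev d l i)) = ev (𝔊.cls d) (l.map 𝔊.cls) :=
    funext fun i => ev_comp 𝔊.cls d l i
  rw [← e2]
  exact Frc.true hR 𝔊 (ev d l) (by rw [e1]; exact h)

/-- truth lemma for assignments given by lists -/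
lemma truth_list {R : Fam.{u+1}} (hR : FO R) (𝔊 : Gen P) (l : List 𝔊.N) (d : 𝔊.N) :
    R 𝔊.M 𝔊.E (ev (𝔊.cls d) (l.map 𝔊.cls)) ↔
      ∃ n, Frc R (ev d.1 (l.map Subtype.val)) (𝔊.G n) := by
  have e1 : (fun i => (ev d l i).1) = ev d.1 (l.map Subtype.val) :=
    funext fun i => ev_comp Subtype.val d l i
  have e2 : (fun i => 𝔊.cls (ev d l i)) = ev (𝔊.cls d) (l.map 𝔊.cls) :=
    funext fun i => ev_comp 𝔊.cls d l i
  rw [← e2, truth hR 𝔊 (ev d l), e1]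

/-- `frc_of'` for assignments given by lists -/
lemma frc_of_list {R : Fam.{u+1}} (hR : FO R) (l : List (Name P)) (d : Name P) (p : P)
    (S : Set (Name P)) (hS : S.Countable) {κ : Type} [Countable κ] (D : κ → Set P)
    (hD : ∀ k p, ∃ q ≤ p, q ∈ D k)
    (h : ∀ (𝔊 : Gen P), Rich 𝔊 → 𝔊.G 0 ≤ p → S ⊆ 𝔊.N → (∀ k, ∃ n, 𝔊.G n ∈ D k) →
      ∀ (hl : ∀ x ∈ l, x ∈ 𝔊.N) (hd : d ∈ 𝔊.N),
        R 𝔊.M 𝔊.E (ev (𝔊.cls ⟨d, hd⟩) (l.attach.map fun x => 𝔊.cls ⟨x.1, hl x.1 x.2⟩))) :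
    Frc R (ev d l) p := by
  refine frc_of' hR (ev d l) p (insert d (S ∪ {x | x ∈ l}))
    ((hS.union ((List.finite_toSet l).countable)).insert _) D hD ?_
  intro 𝔊 h1 h2 h3 h4 hv
  have hl : ∀ x ∈ l, x ∈ 𝔊.N := fun x hx => h3 (Or.inr (Or.inr hx))
  have hd : d ∈ 𝔊.N := h3 (Or.inl rfl)
  have h5 := h 𝔊 h1 h2 (fun x hx => h3 (Or.inr (Or.inl hx))) h4 hl hd
  let l' : List 𝔊.N := l.attach.map fun x => ⟨x.1, hl x.1 x.2⟩
  have hl' : l'.map Subtype.val = l := by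
    simp only [l', List.map_map]
    exact List.attach_map_subtype_val l
  have e3 : (fun i => 𝔊.cls ⟨ev d l i, hv i⟩) = ev (𝔊.cls ⟨d, hd⟩) (l'.map 𝔊.cls) := by
    funext i
    rw [← ev_comp 𝔊.cls ⟨d, hd⟩ l' i]
    congr 1
    apply Subtype.ext
    change ev d l i = (ev (⟨d, hd⟩ : 𝔊.N) l' i).1
    rw [ev_comp Subtype.val ⟨d, hd⟩ l' i, hl']
  rw [e3]
  have e4 : l'.map 𝔊.cls = l.attach.map fun x => 𝔊.cls ⟨x.1, hl x.1 x.2⟩ := by
    simp only [l', List.map_map]; rfl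
  rw [e4]
  exact h5

end Pool.Agent.Inner
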