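import Pool.Agent.Lib_Inner.Vocab

/-!
# The Baire space `ω^ω` in a structure `(M, E)`
-/

namespace Pool.Agent.Inner

universe w

variable {M : Type w} (E : M → M → Prop)

/-- `a ≤ b` for natural numbers -/
def LeN (a b : M) : Prop := E a b ∨ a = b

/-- `f ≤* g`: `f(n) ≤ g(n)` for all but finitely many `n ∈ w = ω` -/
def DomLE (w f g : M) : Prop :=
  ∃ m, E m w ∧ ∀ n, E n w → LeN E m n → ∀ a b, Val E f n a → Val E g n b → LeN E a b

end Pool.Agent.Inner
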