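import Pool.Agent.Lib_Inner.Rich
import Pool.Agent.Lib_Inner.RealVocab

/-!
# Reals of rich models
-/

set_option linter.unusedSectionVars false
set_option linter.unusedVariables false

namespace Pool.Agent.Inner

universe u w

open Forcing Name

namespace FO

lemma leN (i j : ℕ) : FO.{w} (fun _ E v => LeN E (v i) (v j)) := or (mem _ _) (eq _ _)

lemma domLE (i j k : ℕ) : FO.{w} (fun _ E v => DomLE E (v i) (v j) (v k)) :=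
  ex (and (mem _ _) (all (imp (mem _ _) (imp (leN _ _)
    (all (all (imp (val _ _ _) (imp (val _ _ _) (leN _ _)))))))))

end FO

variable {P : Type u} [Preorder P] [OrderTop P] {𝔊 : Gen P} (h𝔊 : Rich 𝔊)

namespace Rich

include h𝔊

/-- `x` codes the function `f : ℕ → ℕ` -/
def Codes (x : 𝔊.M) (f : ℕ → ℕ) : Prop :=
  IsFun 𝔊.E x h𝔊.om h𝔊.om ∧ ∀ i, Val 𝔊.E x (h𝔊.nu i) (h𝔊.nu (f i))

lemma nu_mem_om (n : ℕ) : 𝔊.E (h𝔊.nu n) h𝔊.om := h𝔊.mem_om.2 ⟨n, rfl⟩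

lemma exists_codes {x : 𝔊.M} (hx : IsFun 𝔊.E x h𝔊.om h𝔊.om) : ∃ f, h𝔊.Codes x f := by
  have : ∀ i, ∃ j, Val 𝔊.E x (h𝔊.nu i) (h𝔊.nu j) := by
    intro i
    obtain ⟨y, hy, _⟩ := hx.2 _ (h𝔊.nu_mem_om i)
    obtain ⟨z, hz1, hz2⟩ := hy
    obtain ⟨a, b, ha, hb, hp⟩ := hx.1 z hz2
    rw [isPair_iff h𝔊.zfc] at hp hz1
    rw [hz1, pair_inj h𝔊.zfc] at hp
    obtain ⟨j, hj⟩ := h𝔊.mem_om.1 hb
    refine ⟨j, z, ?_, hz2⟩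
    rw [isPair_iff h𝔊.zfc, hz1, hp.2, hj]
  choose f hf using this
  exact ⟨f, hx, hf⟩

lemma Codes.val_iff {x : 𝔊.M} {f : ℕ → ℕ} (h : h𝔊.Codes x f) {i : ℕ} {y : 𝔊.M} :
    Val 𝔊.E x (h𝔊.nu i) y ↔ y = h𝔊.nu (f i) := by
  constructor
  · intro hy
    obtain ⟨z, _, hu⟩ := h.1.2 _ (h𝔊.nu_mem_om i)
    rw [hu y hy, hu _ (h.2 i)]
  · rintro rfl; exact h.2 i

lemma leN_nu {m n : ℕ} : LeN 𝔊.E (h𝔊.nu m) (h𝔊.nu n) ↔ m ≤ n := by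
  unfold LeN
  rw [h𝔊.mem_nu, h𝔊.nu_inj]
  constructor
  · rintro (⟨k, hk, h⟩ | h)
    · rw [h𝔊.nu_inj] at h; omega
    · omega
  · intro h
    rcases Nat.lt_or_eq_of_le h with h | h
    · exact Or.inl ⟨m, h, rfl⟩
    · exact Or.inr h

lemma domLE_iff {x y : 𝔊.M} {f g : ℕ → ℕ} (hx : h𝔊.Codes x f) (hy : h𝔊.Codes y g) :
    DomLE 𝔊.E h𝔊.om x y ↔ ∃ m, ∀ n, m ≤ n → f n ≤ g n := by
  constructor
  · rintro ⟨m, hm, h⟩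
    obtain ⟨m, rfl⟩ := h𝔊.mem_om.1 hm
    refine ⟨m, fun n hn => ?_⟩
    have := h _ (h𝔊.nu_mem_om n) (h𝔊.leN_nu.2 hn) _ _ (hx.2 n) (hy.2 n)
    exact h𝔊.leN_nu.1 this
  · rintro ⟨m, h⟩
    refine ⟨_, h𝔊.nu_mem_om m, ?_⟩
    intro n hn hmn a b ha hb
    obtain ⟨n, rfl⟩ := h𝔊.mem_om.1 hn
    rw [hx.val_iff] at ha
    rw [hy.val_iff] at hb
    subst ha; subst hb
    exact h𝔊.leN_nu.2 (h n (h𝔊.leN_nu.1 hmn))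

/-- elements with the same code are equal -/
lemma Codes.unique {x y : 𝔊.M} {f : ℕ → ℕ} (hx : h𝔊.Codes x f) (hy : h𝔊.Codes y f) : x = y := by
  have key : ∀ {x y : 𝔊.M}, h𝔊.Codes x f → h𝔊.Codes y f → ∀ z, 𝔊.E z x → 𝔊.E z y := by
    intro x y hx hy z hz
    obtain ⟨a, b, ha, hb, hp⟩ := hx.1.1 z hz
    obtain ⟨i, rfl⟩ := h𝔊.mem_om.1 ha
    have h1 : Val 𝔊.E x (h𝔊.nu i) b := ⟨z, hp, hz⟩
    rw [hx.val_iff] at h1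
    subst h1
    obtain ⟨z', hp', hz'⟩ := hy.2 i
    rw [isPair_iff h𝔊.zfc] at hp hp'
    rw [hp, ← hp']; exact hz'
  exact ext h𝔊.zfc fun z => ⟨key hx hy z, key hy hx z⟩

end Rich

end Pool.Agent.Inner
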