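import Pool.Agent.Lib_Inner.VocabFO
import Pool.Agent.Lib_Forcing.SetTheory
import Mathlib.Tactic.Push

/-!
# Elementary set theory inside a model `(M, E)` of ZFC
-/

namespace Pool.Agent.Inner

universe w

open Forcing

variable {M : Type w} {E : M → M → Prop}

section
variable (hE : ModelsZFC E)
include hE

lemma sep {R : Fam.{w}} (hR : FO R) (v : ℕ → M) (a : M) :
    ∃ b, ∀ x, E x b ↔ E x a ∧ R M E (cons x v) := by
  obtain ⟨φ, hφ⟩ := hR
  obtain ⟨b, hb⟩ := hE.separation φ 0 (cons a v) a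
  refine ⟨b, fun x => ?_⟩
  rw [hb, hφ]
  have : Function.update (cons a v) 0 x = cons x v := by
    funext k
    cases k <;> simp
  rw [this]

lemma repl {R : Fam.{w}} (hR : FO R) (v : ℕ → M) (a : M)
    (h : ∀ x, E x a → ∃! y, R M E (cons x (cons y v))) :
    ∃ b, ∀ y, E y b ↔ ∃ x, E x a ∧ R M E (cons x (cons y v)) := by
  obtain ⟨φ, hφ⟩ := hR
  have key : ∀ x y, Function.update (Function.update (cons a (cons a v)) 0 x) 1 y =
      cons x (cons y v) := by
    intro x y
    funext k
    rcases k with _ | _ | k <;> simp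
  obtain ⟨b, hb⟩ := hE.replacement φ (cons a (cons a v)) a (by
    intro x hx
    obtain ⟨y, hy, hu⟩ := h x hx
    refine ⟨y, ?_, fun y' hy' => hu y' ?_⟩
    · change Sat E φ (Function.update (Function.update (cons a (cons a v)) 0 x) 1 y)
      rw [key, hφ]; exact hy
    · change R M E (cons x (cons y' v))
      rw [← hφ, ← key]; exact hy')
  refine ⟨b, fun y => ?_⟩
  rw [hb]
  refine exists_congr fun x => ?_
  rw [key, hφ]

lemma ext {x y : M} (h : ∀ z, E z x ↔ E z y) : x = y := hE.extensionality x y h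

end

/-! ### pairs -/

open Classical in
/-- unordered pair -/
noncomputable def upair (E : M → M → Prop) (x y : M) : M :=
  if h : ∃ z, IsUPair E z x y then h.choose else x

/-- ordered pair -/
noncomputable def pair (E : M → M → Prop) (x y : M) : M := upair E (upair E x x) (upair E x y)

section
variable (hE : ModelsZFC E)
include hE

lemma isUPair_upair (x y : M) : IsUPair E (upair E x y) x y := by
  have h : ∃ z, IsUPair E z x y := hE.pairing x y
  unfold upair
  rw [dif_pos h]
  exact h.choose_spec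

lemma mem_upair {x y z : M} : E z (upair E x y) ↔ z = x ∨ z = y := isUPair_upair hE x y z

lemma isUPair_iff {x y z : M} : IsUPair E z x y ↔ z = upair E x y := by
  constructor
  · intro h
    exact ext hE fun u => by rw [h u, mem_upair hE]
  · rintro rfl; exact isUPair_upair hE x y

lemma isPair_iff {x y z : M} : IsPair E z x y ↔ z = pair E x y := by
  unfold IsPair pair
  constructor
  · rintro ⟨a, b, h1, h2, h3⟩
    rw [isUPair_iff hE] at h1 h2 h3
    rw [h3, h1, h2]
  · rintro rfl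
    exact ⟨upair E x x, upair E x y, isUPair_upair hE _ _, isUPair_upair hE _ _,
      isUPair_upair hE _ _⟩

lemma upair_inj {a b c d : M} (h : upair E a b = upair E c d) :
    (a = c ∧ b = d) ∨ (a = d ∧ b = c) := by
  have h1 : ∀ z, (z = a ∨ z = b) ↔ (z = c ∨ z = d) := by
    intro z
    rw [← mem_upair hE, h, mem_upair hE]
  have ha := (h1 a).1 (Or.inl rfl)
  have hb := (h1 b).1 (Or.inr rfl)
  have hc := (h1 c).2 (Or.inl rfl)
  have hd := (h1 d).2 (Or.inr rfl)
  rcases ha with ha | ha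
  · rcases hb with hb | hb
    · subst ha; subst hb
      left; refine ⟨rfl, ?_⟩
      rcases hd with hd | hd <;> exact hd.symm
    · exact Or.inl ⟨ha, hb⟩
  · rcases hb with hb | hb
    · exact Or.inr ⟨ha, hb⟩
    · subst ha; subst hb
      left
      rcases hc with hc | hc
      · exact ⟨hc.symm, rfl⟩
      · exact ⟨hc.symm, rfl⟩

lemma pair_inj {a b c d : M} : pair E a b = pair E c d ↔ a = c ∧ b = d := by
  constructor
  · intro h
    rcases upair_inj hE h with ⟨h1, h2⟩ | ⟨h1, h2⟩
    · rcases upair_inj hE h1 with ⟨h3, _⟩ | ⟨h3, _⟩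
      · subst h3
        rcases upair_inj hE h2 with ⟨_, h4⟩ | ⟨h4, h5⟩
        · exact ⟨rfl, h4⟩
        · exact ⟨rfl, h5.trans h4⟩
      · subst h3
        rcases upair_inj hE h2 with ⟨_, h4⟩ | ⟨h4, h5⟩
        · exact ⟨rfl, h4⟩
        · exact ⟨rfl, h5.trans h4⟩
    · -- {a} = {c,d}, {a,b} = {c}
      have e1 : c = a ∧ d = a := by
        rcases upair_inj hE h1 with ⟨h3, h4⟩ | ⟨h3, h4⟩
        · exact ⟨h3.symm, h4.symm⟩
        · exact ⟨h4.symm, h3.symm⟩
      have e2 : a = c ∧ b = c := by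
        rcases upair_inj hE h2 with ⟨h3, h4⟩ | ⟨h3, h4⟩
        · exact ⟨h3, h4⟩
        · exact ⟨h3, h4⟩
      exact ⟨e2.1, e2.2.trans (e1.1.trans e1.2.symm)⟩
  · rintro ⟨rfl, rfl⟩; rfl

lemma val_iff {f x y : M} : Val E f x y ↔ E (pair E x y) f := by
  unfold Val
  constructor
  · rintro ⟨z, h1, h2⟩
    rw [isPair_iff hE] at h1
    rw [← h1]; exact h2
  · intro h
    exact ⟨_, (isPair_iff hE).2 rfl, h⟩

/-- the cartesian product exists -/
lemma exists_prod (a b : M) : ∃ c, ∀ z, E z c ↔ ∃ x y, E x a ∧ E y b ∧ z = pair E x y := by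
  -- for each `x ∈ a` the set `{x} × b`
  have h1 : ∀ x, ∃ c, ∀ z, E z c ↔ ∃ y, E y b ∧ z = pair E x y := by
    intro x
    obtain ⟨c, hc⟩ := repl hE (R := fun M E v => IsPair E (v 1) (v 2) (v 0)) (FO.isPair _ _ _)
      (cons x (fun _ => x)) b (by
        intro y _
        exact ⟨pair E x y, (isPair_iff hE).2 rfl, fun z hz => (isPair_iff hE).1 hz⟩)
    refine ⟨c, fun z => ?_⟩
    rw [hc]
    exact exists_congr fun y => and_congr_right fun _ => isPair_iff hE
  -- the family of these sets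
  obtain ⟨F, hF⟩ := repl hE
    (R := fun M E v => ∀ z, E z (v 1) ↔ ∃ y, E y (v 2) ∧ IsPair E z (v 0) y)
    (FO.all (FO.iff (FO.mem _ _) (FO.ex (FO.and (FO.mem _ _) (FO.isPair _ _ _)))))
    (cons b (fun _ => b)) a (by
      intro x _
      obtain ⟨c, hc⟩ := h1 x
      refine ⟨c, ?_, ?_⟩
      · intro z
        change E z c ↔ ∃ y, E y b ∧ IsPair E z x y
        rw [hc]
        exact exists_congr fun y => and_congr_right fun _ => (isPair_iff hE).symm
      · intro c' hc'
        have hc'' : ∀ z, E z c' ↔ ∃ y, E y b ∧ IsPair E z x y := hc'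
        apply ext hE
        intro z
        rw [hc'', hc]
        exact exists_congr fun y => and_congr_right fun _ => isPair_iff hE)
  obtain ⟨c, hc⟩ := hE.union F
  refine ⟨c, fun z => ?_⟩
  rw [hc]
  constructor
  · rintro ⟨y, hy, hz⟩
    obtain ⟨x, hx, hxy⟩ := (hF y).1 hy
    have hxy' : ∀ z, E z y ↔ ∃ y', E y' b ∧ IsPair E z x y' := hxy
    obtain ⟨y', hy', h2⟩ := (hxy' z).1 hz
    exact ⟨x, y', hx, hy', (isPair_iff hE).1 h2⟩
  · rintro ⟨x, y, hx, hy, rfl⟩
    obtain ⟨d, hd⟩ := h1 x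
    refine ⟨d, (hF d).2 ⟨x, hx, ?_⟩, (hd _).2 ⟨y, hy, rfl⟩⟩
    intro z
    change E z d ↔ ∃ y, E y b ∧ IsPair E z x y
    rw [hd]
    exact exists_congr fun y => and_congr_right fun _ => (isPair_iff hE).symm

end

end Pool.Agent.Inner
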