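import Pool.Agent.Lib_Forcing.Formula

/-!
# First-order properties of structures `(M, E)`, in shallow form

`FO R` says that the property `R` of assignments, uniformly in all structures `(M, E)`, is given by
a first-order formula. The closure lemmas allow one to write properties as ordinary Lean
propositions that quantify over `M`.
-/

namespace Pool.Agent.Inner

universe w

open Forcing

/-- the assignment `x, v 0, v 1, ...` -/
def cons {M : Type w} (x : M) (v : ℕ → M) : ℕ → M
  | 0 => x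
  | n+1 => v n

@[simp] lemma cons_zero {M : Type w} (x : M) (v : ℕ → M) : cons x v 0 = x := rfl
@[simp] lemma cons_succ {M : Type w} (x : M) (v : ℕ → M) (n : ℕ) : cons x v (n+1) = v n := rfl

/-- uniform families of properties of assignments -/
abbrev Fam : Type (w+1) := ∀ (M : Type w), (M → M → Prop) → (ℕ → M) → Prop

/-- `R` is a first-order property -/
def FO (R : Fam.{w}) : Prop := ∃ φ : Fml, ∀ (M : Type w) (E : M → M → Prop) (v : ℕ → M),
  Sat E φ v ↔ R M E v

namespace FO

/-- renaming of variables (bound and free) -/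
def ren (f : ℕ → ℕ) : Fml → Fml
  | .mem i j => .mem (f i) (f j)
  | .eq i j => .eq (f i) (f j)
  | .neg φ => .neg (ren f φ)
  | .and φ ψ => .and (ren f φ) (ren f ψ)
  | .all i φ => .all (f i) (ren f φ)

lemma sat_ren {f : ℕ → ℕ} (hf : Function.Injective f) (φ : Fml) {M : Type w} (E : M → M → Prop)
    (v : ℕ → M) : Sat E (ren f φ) v ↔ Sat E φ (v ∘ f) := by
  induction φ generalizing v with
  | mem i j => rfl
  | eq i j => rfl
  | neg φ ih => rw [ren, sat_neg, sat_neg, ih]
  | and φ ψ ih1 ih2 => rw [ren, sat_and, sat_and, ih1, ih2]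
  | all i φ ih =>
    rw [ren, sat_all, sat_all]
    refine forall_congr' fun x => ?_
    rw [ih]
    have : Function.update v (f i) x ∘ f = Function.update (v ∘ f) i x := by
      funext k
      by_cases h : k = i
      · subst h; simp
      · have h2 : f k ≠ f i := fun h3 => h (hf h3)
        simp [Function.update_of_ne h, Function.update_of_ne h2]
    rw [this]

/-- the injection used to turn variable `0` into a bound variable -/
def sh (B : ℕ) (k : ℕ) : ℕ := if k = 0 then B else if k < B then k - 1 else k + 1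

lemma sh_inj (B : ℕ) : Function.Injective (sh B) := by
  intro a b h
  unfold sh at h
  split_ifs at h <;> omega

variable {R S : Fam.{w}}

lemma mem (i j : ℕ) : FO.{w} (fun _ E v => E (v i) (v j)) := ⟨.mem i j, fun _ _ _ => Iff.rfl⟩

lemma eq (i j : ℕ) : FO.{w} (fun _ _ v => v i = v j) := ⟨.eq i j, fun _ _ _ => Iff.rfl⟩

lemma not (h : FO R) : FO.{w} (fun M E v => ¬ R M E v) := by
  obtain ⟨φ, hφ⟩ := h
  exact ⟨.neg φ, fun M E v => by rw [sat_neg, hφ]⟩

lemma and (h1 : FO R) (h2 : FO S) : FO.{w} (fun M E v => R M E v ∧ S M E v) := by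
  obtain ⟨φ, hφ⟩ := h1
  obtain ⟨ψ, hψ⟩ := h2
  exact ⟨.and φ ψ, fun M E v => by rw [sat_and, hφ, hψ]⟩

lemma imp (h1 : FO R) (h2 : FO S) : FO.{w} (fun M E v => R M E v → S M E v) := by
  obtain ⟨φ, hφ⟩ := h1
  obtain ⟨ψ, hψ⟩ := h2
  exact ⟨.imp φ ψ, fun M E v => by rw [sat_imp, hφ, hψ]⟩

lemma or (h1 : FO R) (h2 : FO S) : FO.{w} (fun M E v => R M E v ∨ S M E v) := by
  obtain ⟨φ, hφ⟩ := h1
  obtain ⟨ψ, hψ⟩ := h2
  exact ⟨.or φ ψ, fun M E v => by rw [sat_or, hφ, hψ]⟩

lemma iff (h1 : FO R) (h2 : FO S) : FO.{w} (fun M E v => (R M E v ↔ S M E v)) := by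
  obtain ⟨φ, hφ⟩ := h1
  obtain ⟨ψ, hψ⟩ := h2
  exact ⟨.iff φ ψ, fun M E v => by rw [sat_iff, hφ, hψ]⟩

lemma all {R : ∀ (M : Type w), (M → M → Prop) → M → (ℕ → M) → Prop}
    (h : FO (fun M E v => R M E (v 0) (fun k => v (k+1)))) :
    FO.{w} (fun M E v => ∀ x, R M E x v) := by
  obtain ⟨φ, hφ⟩ := h
  let B := φ.bd + 1
  refine ⟨.all B (ren (sh B) φ), fun M E v => ?_⟩
  rw [sat_all]
  refine forall_congr' fun x => ?_
  rw [sat_ren (sh_inj B)]
  have h2 : R M E x v ↔ Sat E φ (cons x v) := (hφ M E (cons x v)).symm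
  rw [h2]
  apply sat_congr
  intro i hi
  rcases i with _ | i
  · have : sh B 0 = B := if_pos rfl
    simp [this]
  · have h3 : sh B (i+1) = i := by
      unfold sh
      rw [if_neg (by omega), if_pos (by omega)]
      omega
    have h4 : i ≠ B := by omega
    simp [h3, Function.update_of_ne h4]

lemma ex {R : ∀ (M : Type w), (M → M → Prop) → M → (ℕ → M) → Prop}
    (h : FO (fun M E v => R M E (v 0) (fun k => v (k+1)))) :
    FO.{w} (fun M E v => ∃ x, R M E x v) := by
  have h1 : FO.{w} (fun M E v => ¬ ∀ x, ¬ R M E x v) := not (all (not h))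
  obtain ⟨φ, hφ⟩ := h1
  exact ⟨φ, fun M E v => by rw [hφ]; push Not; rfl⟩

lemma exu {R : ∀ (M : Type w), (M → M → Prop) → M → (ℕ → M) → Prop}
    (h : FO (fun M E v => R M E (v 0) (fun k => v (k+1))))
    (h' : FO (fun M E v => R M E (v 0) (fun k => v (k+2)))) :
    FO.{w} (fun M E v => ∃! x, R M E x v) :=
  ex (R := fun M E x v => R M E x v ∧ ∀ y, R M E y v → y = x)
    (and h (all (R := fun M E y v => R M E y (fun k => v (k+1)) → y = v 0) (imp h' (eq 0 1))))

lemma tru : FO.{w} (fun _ _ _ => True) := by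
  obtain ⟨φ, hφ⟩ := FO.eq.{w} 0 0
  exact ⟨φ, fun M E v => by rw [hφ]; exact ⟨fun _ => trivial, fun _ => rfl⟩⟩

/-- change of variables -/
lemma comp (f : ℕ → ℕ) (hf : Function.Injective f) (h : FO R) :
    FO.{w} (fun M E v => R M E (fun k => v (f k))) := by
  obtain ⟨φ, hφ⟩ := h
  exact ⟨ren f φ, fun M E v => by rw [sat_ren hf, hφ]; rfl⟩

lemma congr (h : FO R) (h2 : ∀ M E v, R M E v ↔ S M E v) : FO.{w} S := by
  obtain ⟨φ, hφ⟩ := h
  exact ⟨φ, fun M E v => by rw [hφ, h2]⟩

end FO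

end Pool.Agent.Inner
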