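import Mathlib.Logic.Basic
import Mathlib.Logic.ExistsUnique

/-!
# Basic vocabulary of set theory, interpreted in a structure `(M, E)`

All quantifiers range over `M`, so each of these notions is the relativisation to `(M, E)` of the
usual first-order definition.
-/

namespace Pool.Agent.Inner

universe w

variable {M : Type w} (E : M → M → Prop)

/-- `x ⊆ y` -/
def Sub (x y : M) : Prop := ∀ z, E z x → E z y

/-- `z = {x, y}` -/
def IsUPair (z x y : M) : Prop := ∀ u, E u z ↔ u = x ∨ u = y

/-- `z = (x, y)`, the ordered pair `{{x, x}, {x, y}}` -/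
def IsPair (z x y : M) : Prop := ∃ a b, IsUPair E a x x ∧ IsUPair E b x y ∧ IsUPair E z a b

/-- `(x, y) ∈ f`; if `f` is a function: `f(x) = y` -/
def Val (f x y : M) : Prop := ∃ z, IsPair E z x y ∧ E z f

/-- `f` is a function from `a` to `b` -/
def IsFun (f a b : M) : Prop :=
  (∀ z, E z f → ∃ x y, E x a ∧ E y b ∧ IsPair E z x y) ∧ ∀ x, E x a → ∃! y, Val E f x y

/-- `s = x ∪ {x}` -/
def IsSucc (s x : M) : Prop := ∀ z, E z s ↔ E z x ∨ z = x

/-- `w` contains the empty set and is closed under successors -/
def Inductive (w : M) : Prop :=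
  (∀ e, (∀ z, ¬ E z e) → E e w) ∧ ∀ x s, E x w → IsSucc E s x → E s w

/-- `w` is the set `ω` of natural numbers: the least inductive set -/
def IsOmega (w : M) : Prop := Inductive E w ∧ ∀ w', Inductive E w' → Sub E w w'

end Pool.Agent.Inner
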