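import Pool.Agent.Lib_Inner.FO
import Pool.Agent.Lib_Inner.Vocab

/-! first-order definability of the basic vocabulary -/

namespace Pool.Agent.Inner

universe w

namespace FO

lemma sub (i j : ℕ) : FO.{w} (fun _ E v => Sub E (v i) (v j)) :=
  all (imp (mem _ _) (mem _ _))

lemma isUPair (i j k : ℕ) : FO.{w} (fun _ E v => IsUPair E (v i) (v j) (v k)) :=
  all (iff (mem _ _) (or (eq _ _) (eq _ _)))

lemma isPair (i j k : ℕ) : FO.{w} (fun _ E v => IsPair E (v i) (v j) (v k)) :=
  ex (ex (and (isUPair _ _ _) (and (isUPair _ _ _) (isUPair _ _ _))))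

lemma val (i j k : ℕ) : FO.{w} (fun _ E v => Val E (v i) (v j) (v k)) :=
  ex (and (isPair _ _ _) (mem _ _))

lemma isFun (i j k : ℕ) : FO.{w} (fun _ E v => IsFun E (v i) (v j) (v k)) :=
  and (all (imp (mem _ _) (ex (ex (and (mem _ _) (and (mem _ _) (isPair _ _ _)))))))
    (all (imp (mem _ _) (exu (val _ _ _) (val _ _ _))))

lemma isSucc (i j : ℕ) : FO.{w} (fun _ E v => IsSucc E (v i) (v j)) :=
  all (iff (mem _ _) (or (mem _ _) (eq _ _)))

lemma inductive' (i : ℕ) : FO.{w} (fun _ E v => Inductive E (v i)) :=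
  and (all (imp (all (not (mem _ _))) (mem _ _)))
    (all (all (imp (mem _ _) (imp (isSucc _ _) (mem _ _)))))

lemma isOmega (i : ℕ) : FO.{w} (fun _ E v => IsOmega E (v i)) :=
  and (inductive' _) (all (imp (inductive' _) (sub _ _)))

end FO

end Pool.Agent.Inner
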